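import Pool.Agent.Helper32.B4.St

/-!
# B4: module SL (the Koebe slit map)
-/

set_option autoImplicit false

open Metric Set Filter Topology MeasureTheory
open scoped ComplexConjugate Interval

namespace Pool.Agent.Helper80.B4

open Pool.Agent.Helper32.B4 Pool.Agent.Helper32.DX Pool.Agent.Helper64.C3

/-- the map onto the right half plane -/
private noncomputable def zz (w : ℂ) : ℂ := (1 + w) / (1 - w)

private theorem one_sub_ne {w : ℂ} (hw : ‖w‖ < 1) : (1 : ℂ) - w ≠ 0 := by
  intro h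
  have : w = 1 := by linear_combination -h
  rw [this, norm_one] at hw
  exact lt_irrefl _ hw

private theorem re_zz {w : ℂ} (hw : ‖w‖ < 1) : 0 < (zz w).re := by
  have h1 : 0 < Complex.normSq (1 - w) := Complex.normSq_pos.mpr (one_sub_ne hw)
  have h2 : Complex.normSq w < 1 := by
    rw [Complex.normSq_eq_norm_sq]
    nlinarith [norm_nonneg w]
  have h3 : (zz w).re = (1 - Complex.normSq w) / Complex.normSq (1 - w) := by
    unfold zz
    rw [Complex.div_re]
    have : Complex.normSq w = w.re * w.re + w.im * w.im := Complex.normSq_apply w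
    rw [this]
    simp only [Complex.add_re, Complex.sub_re, Complex.one_re, Complex.add_im, Complex.sub_im,
      Complex.one_im]
    field_simp
    ring
  rw [h3]
  exact div_pos (by linarith) h1

private noncomputable def GG (q : ℝ) (w : ℂ) : ℂ := ((1 - q : ℝ) : ℂ) + (q : ℂ) * zz w ^ 2

private theorem GG_slit {q : ℝ} (hq0 : 0 < q) (hq1 : q ≤ 1) {w : ℂ} (hw : ‖w‖ < 1) :
    GG q w ∈ Complex.slitPlane := by
  rw [Complex.mem_slitPlane_iff]
  have hre := re_zz hw
  have h1 : (GG q w).re = (1 - q) + q * ((zz w).re ^ 2 - (zz w).im ^ 2) := by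
    unfold GG
    simp [pow_two]
  have h2 : (GG q w).im = q * (2 * (zz w).re * (zz w).im) := by
    unfold GG
    simp only [pow_two, Complex.add_im, Complex.mul_im, Complex.ofReal_re, Complex.ofReal_im]
    ring
  by_cases him : (zz w).im = 0
  · left
    rw [h1, him]
    have : 0 < q * (zz w).re ^ 2 := by positivity
    nlinarith
  · right
    rw [h2]
    have h3 : q ≠ 0 := hq0.ne'
    have h4 : (zz w).re ≠ 0 := hre.ne'
    positivity

private noncomputable def RR (q : ℝ) (w : ℂ) : ℂ := Complex.exp (Complex.log (GG q w) / 2)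

private theorem RR_sq {q : ℝ} (hq0 : 0 < q) (hq1 : q ≤ 1) {w : ℂ} (hw : ‖w‖ < 1) :
    RR q w ^ 2 = GG q w := by
  unfold RR
  rw [← Complex.exp_nat_mul]
  have : ((2 : ℕ) : ℂ) * (Complex.log (GG q w) / 2) = Complex.log (GG q w) := by
    push_cast
    ring
  rw [this, Complex.exp_log (Complex.slitPlane_ne_zero (GG_slit hq0 hq1 hw))]

private theorem RR_re {q : ℝ} (hq0 : 0 < q) (hq1 : q ≤ 1) {w : ℂ} (hw : ‖w‖ < 1) :
    0 < (RR q w).re := by
  unfold RR
  rw [Complex.exp_re]
  apply mul_pos (Real.exp_pos _)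
  have him : (Complex.log (GG q w) / 2).im = (GG q w).arg / 2 := by
    have : Complex.log (GG q w) / 2 = ((1 / 2 : ℝ) : ℂ) * Complex.log (GG q w) := by
      push_cast
      ring
    rw [this, Complex.im_ofReal_mul, Complex.log_im]
    ring
  rw [him]
  have h1 := (GG q w).arg_le_pi
  have h2 := (GG q w).neg_pi_lt_arg
  have h3 := Complex.mem_slitPlane_iff_arg.mp (GG_slit hq0 hq1 hw)
  have h4 : (GG q w).arg < Real.pi := lt_of_le_of_ne h1 h3.1
  apply Real.cos_pos_of_mem_Ioo
  constructor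
  · linarith
  · linarith

private noncomputable def ph (q : ℝ) (w : ℂ) : ℂ := (RR q w - 1) / (RR q w + 1)

private theorem RR_add_ne {q : ℝ} (hq0 : 0 < q) (hq1 : q ≤ 1) {w : ℂ} (hw : ‖w‖ < 1) :
    RR q w + 1 ≠ 0 := by
  intro h
  have h1 := congrArg Complex.re h
  have h2 := RR_re hq0 hq1 hw
  simp only [Complex.add_re, Complex.one_re, Complex.zero_re] at h1
  linarith

private theorem ph_norm {q : ℝ} (hq0 : 0 < q) (hq1 : q ≤ 1) {w : ℂ} (hw : ‖w‖ < 1) :
    ‖ph q w‖ < 1 := by
  have h2 := RR_re hq0 hq1 hw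
  have h3 : 0 < ‖RR q w + 1‖ := norm_pos_iff.mpr (RR_add_ne hq0 hq1 hw)
  unfold ph
  rw [norm_div, div_lt_one h3]
  apply lt_of_pow_lt_pow_left₀ 2 (norm_nonneg _)
  rw [← Complex.normSq_eq_norm_sq, ← Complex.normSq_eq_norm_sq, Complex.normSq_apply,
    Complex.normSq_apply]
  simp only [Complex.add_re, Complex.sub_re, Complex.one_re, Complex.add_im, Complex.sub_im,
    Complex.one_im]
  nlinarith

private theorem ph_zero (q : ℝ) : ph q 0 = 0 := by
  unfold ph RR GG zz
  simp

private theorem ph_rel {q : ℝ} (hq0 : 0 < q) (hq1 : q ≤ 1) {w : ℂ} (hw : ‖w‖ < 1) :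
    ph q w * (1 - w) ^ 2 = q * w * (1 - ph q w) ^ 2 := by
  have h1 := RR_sq hq0 hq1 hw
  have h2 := RR_add_ne hq0 hq1 hw
  have h3 := one_sub_ne hw
  have h4 : (1 - w) ^ 2 * RR q w ^ 2 = (1 - q) * (1 - w) ^ 2 + q * (1 + w) ^ 2 := by
    rw [h1]
    unfold GG zz
    push_cast
    field_simp
  unfold ph
  have h5 : 1 - (RR q w - 1) / (RR q w + 1) = 2 / (RR q w + 1) := by
    field_simp
    ring
  rw [h5]
  field_simp
  linear_combination h4

private theorem ph_diff {q : ℝ} (hq0 : 0 < q) (hq1 : q ≤ 1) :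
    DifferentiableOn ℂ (ph q) (ball 0 1) := by
  intro w hw
  have hw1 : ‖w‖ < 1 := by simpa using hw
  apply DifferentiableAt.differentiableWithinAt
  have hz : DifferentiableAt ℂ zz w := by
    unfold zz
    apply DifferentiableAt.div
    · fun_prop
    · fun_prop
    · exact one_sub_ne hw1
  have hG : DifferentiableAt ℂ (GG q) w := by
    unfold GG
    fun_prop
  have hR : DifferentiableAt ℂ (RR q) w := by
    unfold RR
    apply DifferentiableAt.cexp
    apply DifferentiableAt.div_const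
    exact hG.clog (GG_slit hq0 hq1 hw1)
  unfold ph
  exact (hR.sub_const 1).div (hR.add_const 1) (RR_add_ne hq0 hq1 hw1)

/-- **StSL** -/
theorem hSL : StSL := by
  intro q e hq0 hq1 he
  have he0 : e ≠ 0 := by
    intro h
    rw [h, norm_zero] at he
    norm_num at he
  have hmul : ∀ w ∈ ball (0 : ℂ) 1, ‖e * w‖ < 1 := by
    intro w hw
    rw [norm_mul, he, one_mul]
    simpa using hw
  set ψ : ℂ → ℂ := fun w => e⁻¹ * ph q (e * w) with hψ
  have hrel : ∀ w ∈ ball (0 : ℂ) 1, ψ w * (1 - e * w) ^ 2 = q * w * (1 - e * ψ w) ^ 2 := by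
    intro w hw
    have h1 := ph_rel hq0 hq1 (hmul w hw)
    have h2 : e * ψ w = ph q (e * w) := by
      rw [hψ]
      simp only
      rw [← mul_assoc, mul_inv_cancel₀ he0, one_mul]
    rw [h2]
    have h3 : ψ w = e⁻¹ * ph q (e * w) := rfl
    rw [h3, mul_assoc, h1]
    field_simp
  have hdiff : DifferentiableOn ℂ ψ (ball 0 1) := by
    have h1 : DifferentiableOn ℂ (fun w : ℂ => ph q (e * w)) (ball 0 1) := by
      apply (ph_diff hq0 hq1).comp
      · fun_prop
      · intro w hw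
        simpa using hmul w hw
    exact h1.const_mul _
  have hmaps : MapsTo ψ (ball 0 1) (ball 0 1) := by
    intro w hw
    have h1 := ph_norm hq0 hq1 (hmul w hw)
    have h2 : ‖ψ w‖ = ‖ph q (e * w)‖ := by
      have h3 : ψ w = e⁻¹ * ph q (e * w) := rfl
      rw [h3, norm_mul, norm_inv, he, inv_one, one_mul]
    rw [mem_ball_zero_iff, h2]
    exact h1
  have hzero : ψ 0 = 0 := by
    have h3 : ψ 0 = e⁻¹ * ph q (e * 0) := rfl
    rw [h3, mul_zero, ph_zero, mul_zero]
  have hq0' : (q : ℂ) ≠ 0 := by exact_mod_cast hq0.ne'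
  have hne1 : ∀ w ∈ ball (0 : ℂ) 1, (1 : ℂ) - e * w ≠ 0 := fun w hw => one_sub_ne (hmul w hw)
  refine ⟨ψ, ⟨hdiff, hmaps, hzero⟩, ?_, ?_, hrel⟩
  · intro w1 hw1 w2 hw2 h12
    have r1 := hrel w1 hw1
    have r2 := hrel w2 hw2
    rw [← h12] at r2
    have n1 := hne1 w1 hw1
    have n2 := hne1 w2 hw2
    have n3 := hne1 (ψ w1) (hmaps hw1)
    -- w1 (1 - e w2)^2 = w2 (1 - e w1)^2
    have h4 : w1 * (1 - e * w2) ^ 2 = w2 * (1 - e * w1) ^ 2 := by
      have h5 : q * (1 - e * ψ w1) ^ 2 * (w1 * (1 - e * w2) ^ 2) =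
          q * (1 - e * ψ w1) ^ 2 * (w2 * (1 - e * w1) ^ 2) := by
        linear_combination (-(1 - e * w2) ^ 2) * r1 + (1 - e * w1) ^ 2 * r2
      exact mul_left_cancel₀ (mul_ne_zero hq0' (pow_ne_zero 2 n3)) h5
    have h6 : (w1 - w2) * (1 - (e * w1) * (e * w2)) = 0 := by
      linear_combination h4
    rcases mul_eq_zero.mp h6 with h7 | h7
    · exact sub_eq_zero.mp h7
    · exfalso
      have h8 : ‖(e * w1) * (e * w2)‖ < 1 := by
        rw [norm_mul]
        have a1 := hmul w1 hw1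
        have a2 := hmul w2 hw2
        nlinarith [norm_nonneg (e * w1), norm_nonneg (e * w2)]
      exact one_sub_ne h8 h7
  · have h0 : (0 : ℂ) ∈ ball (0 : ℂ) 1 := by simp
    have hd : HasDerivAt ψ (deriv ψ 0) 0 :=
      (hdiff.differentiableAt (isOpen_ball.mem_nhds h0)).hasDerivAt
    have hid : HasDerivAt (fun w : ℂ => w) 1 0 := hasDerivAt_id 0
    have hL : HasDerivAt (fun w : ℂ => ψ w * (1 - e * w) ^ 2) (deriv ψ 0) 0 := by
      have h1 : HasDerivAt (fun w : ℂ => 1 - e * w) (-(e * 1)) 0 :=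
        (hid.const_mul e).const_sub 1
      have h2 := hd.mul (h1.pow 2)
      exact h2.congr_deriv (by simp [hzero])
    have hR : HasDerivAt (fun w : ℂ => (q : ℂ) * w * (1 - e * ψ w) ^ 2) (q : ℂ) 0 := by
      have h1 : HasDerivAt (fun w : ℂ => 1 - e * ψ w) (-(e * deriv ψ 0)) 0 :=
        (hd.const_mul e).const_sub 1
      have h2 := (hid.const_mul (q : ℂ)).mul (h1.pow 2)
      exact h2.congr_deriv (by simp [hzero])
    have hEq : (fun w : ℂ => ψ w * (1 - e * w) ^ 2) =ᶠ[𝓝 0]
        (fun w : ℂ => q * w * (1 - e * ψ w) ^ 2) := by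
      filter_upwards [isOpen_ball.mem_nhds h0] with w hw
      exact hrel w hw
    exact hL.unique (hR.congr_of_eventuallyEq hEq)

end Pool.Agent.Helper80.B4
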